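import Pool.Agent.H35.KB.XWB

/-! # Project KB: the bounds of order one -/

set_option autoImplicit false

open MeasureTheory Set Filter Topology
open scoped ContDiff

namespace Pool.Agent.H35.KB

open Pool.Agent.H84 Pool.Agent.H84.Sym Pool.Agent.H84.Sym.P2x Pool.Agent.H19.KL
open Pool.Agent.H73.KG Pool.Agent.H20.KH Pool.Agent.H52.KB
open Pool.Agent.H55.KB (WS spl FL gN GG ML)

/-- Bessel's inequality in abstract form -/
theorem eb1_bessel {E : Type} [NormedAddCommGroup E] [InnerProductSpace ℝ E]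
    [FiniteDimensional ℝ E] [MeasurableSpace E] [BorelSpace E] {t : ℝ} {U : E → ℝ}
    (hU : PP U t) {ι : Type} [Fintype ι] (e : ι → E)
    (h : ∀ u : ι → ℝ, cv U (li (∑ a, u a • e a)) (li (∑ a, u a • e a)) ≤ ∑ a, u a ^ 2)
    {ψ : E → ℝ} (hψ : GC ψ) : hs e U ψ 1 ≤ cv U ψ ψ := by
  obtain ⟨hml, h12, hsw, hli, -⟩ := npb_thm E U t hU
  have hg : ∀ v : E, GC (li v) := fun v => BAS_li v
  set c : ι → ℝ := fun a => cv U ψ (li (e a)) with hc
  have h0 : hs e U ψ 1 = ∑ a, c a ^ 2 := by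
    unfold hs
    rw [Pool.Agent.H55.KB.WS_succ]
    refine Finset.sum_congr rfl fun a _ => ?_
    rw [Pool.Agent.H55.KB.WS_zero]
    congr 1
    exact (h12 ψ hψ (e a) (e a)).1
  have h1 : cv U ψ (li (∑ a, c a • e a)) = ∑ a, c a ^ 2 := by
    rw [← (h12 ψ hψ _ (∑ a, c a • e a)).1, (hml ψ hψ).sum]
    refine Finset.sum_congr rfl fun a _ => ?_
    rw [(h12 ψ hψ (e a) (e a)).1]
    simp only [hc]
    ring
  obtain ⟨h2, h3, -, -⟩ := (bas_thm E).2.2.2.1 U t hU ψ (li (∑ a, c a • e a)) hψ (hg _)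
  rw [h1] at h2
  have h4 := h c
  rw [h0]
  have h5 : 0 ≤ ∑ a, c a ^ 2 := Finset.sum_nonneg fun a _ => sq_nonneg _
  rcases h5.lt_or_eq with h6 | h6
  · have h7 : (∑ a, c a ^ 2) ^ 2 ≤ cv U ψ ψ * ∑ a, c a ^ 2 :=
      le_trans h2 (mul_le_mul_of_nonneg_left h4 h3)
    rw [sq] at h7
    exact le_of_mul_le_mul_right h7 h6
  · rw [← h6]; exact h3

theorem eb1_thm (E : Type) [NormedAddCommGroup E] [InnerProductSpace ℝ E]
    [FiniteDimensional ℝ E] [MeasurableSpace E] [BorelSpace E] : EB1Stmt E := by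
  intro t U e hF ψ hψ
  rw [one_mul]
  exact eb1_bessel hF.pp e (fun u => xwb_var hF u) hψ

theorem fi1_thm (E : Type) [NormedAddCommGroup E] [InnerProductSpace ℝ E]
    [FiniteDimensional ℝ E] [MeasurableSpace E] [BorelSpace E] : FI1Stmt E := by
  intro U t hU hc ψ hψ ι _ b
  classical
  refine eb1_bessel hU b (fun u => ?_) hψ
  refine le_trans (hc _) ?_
  rw [one_mul]
  have h1 : ‖∑ a, u a • b a‖ ^ 2 = ∑ a, u a ^ 2 := by
    rw [← real_inner_self_eq_norm_sq, sum_inner]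
    simp only [inner_sum, inner_smul_left, inner_smul_right, OrthonormalBasis.inner_eq_ite,
      mul_ite, mul_one, mul_zero, Finset.sum_ite_eq, Finset.mem_univ, if_true]
    refine Finset.sum_congr rfl fun a _ => ?_
    simp
    ring
  exact h1.le

end Pool.Agent.H35.KB
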