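import Pool.Agent.H35.KB.Defs
import Pool.Agent.H89.KD.Defs

/-!
# Project KB (Part B of the full KLS theorem): statements
-/

set_option autoImplicit false

open MeasureTheory Set Filter Topology
open scoped ContDiff

namespace Pool.Agent.H35.KB

open Pool.Agent.H84 Pool.Agent.H84.Sym Pool.Agent.H84.Sym.P2x Pool.Agent.H19.KL
open Pool.Agent.H73.KG Pool.Agent.H20.KH Pool.Agent.H52.KB
open Pool.Agent.H55.KB (WS spl FL gN GG ML)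

section measures

variable (E : Type) [NormedAddCommGroup E] [InnerProductSpace ℝ E]
    [FiniteDimensional ℝ E] [MeasurableSpace E] [BorelSpace E]

/-- NPB: first facts on cumulants along words, in this notation -/
def NPBStmt : Prop := ∀ (U : E → ℝ) (t : ℝ), PP U t →
  (∀ ψ : E → ℝ, GC ψ → ML (fun l : List E => ND U ψ l 0 0)) ∧
  (∀ ψ : E → ℝ, GC ψ → ∀ v w : E, ND U ψ [v] 0 0 = cv U ψ (li v) ∧
    ND U ψ [v, w] 0 0 = q2 U ψ v w) ∧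
  (∀ (u v : E) (l : List E), ND U (li u) (v :: l) 0 0 = ND U (li v) (u :: l) 0 0) ∧
  (∀ (ι : Type) [Fintype ι] (e : ι → E) (u : ι → ℝ) (l : List E),
    ND U (li (∑ a, u a • e a)) l 0 0 = ∑ a, u a * ND U (li (e a)) l 0 0) ∧
  ∀ (ι : Type) (e : ι → E) (a c d : ι), nx e U a [c] = nx e U c [a] ∧
    nx e U a [c, d] = nx e U d [c, a] ∧ nx e U a [c] = cv U (li (e a)) (li (e c))

/-- US0: short time expansion of the variance -/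
def US0Stmt : Prop := ∀ t : ℝ, 0 < t → ∃ C : ℝ, 0 ≤ C ∧ ∀ U : E → ℝ, PP U t → ∀ ψ : E → ℝ,
  GC ψ → ∀ s : ℝ, 0 < s → s ≤ 1 →
  |EX U s (fun θ => cv (pw U s θ) ψ ψ) - cv U ψ ψ + s * hs (b0 E) U ψ 1| ≤ C * s ^ 2 * cv U ψ ψ

/-- USF: short time expansion of the functional `FL` -/
def USFStmt : Prop := ∀ t : ℝ, 0 < t → ∀ n : ℕ, ∃ C : ℝ, 0 ≤ C ∧
  ∀ U : E → ℝ, PP U t → ∀ ρ : Matrix (JJ E) (JJ E) ℝ, (∀ a c, |ρ a c| ≤ 1) →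
  ρ + AX (b0 E) U = 1 → ∀ ψ : E → ℝ, GC ψ → ∀ s : ℝ, 0 < s → s ≤ 1 →
  GC (fun θ => FL (ρ + AX (b0 E) (pw U s θ)) n (np (b0 E) (pw U s θ) ψ)) ∧
  |EX U s (fun θ => FL (ρ + AX (b0 E) (pw U s θ)) n (np (b0 E) (pw U s θ) ψ)) -
    hs (b0 E) U ψ (n + 1) - s * GX (b0 E) U ψ n| ≤ C * s ^ 2 * cv U ψ ψ

/-- TRF: whitening by a linear change of variables, and back for the posterior measures -/
def TRFStmt : Prop := ∀ (t : ℝ) (U : E → ℝ) (e : Module.Basis (JJ E) ℝ E), Fr E t U e →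
  ∃ U' : E → ℝ, PP U' t ∧
  (∀ a c, inner ℝ (e a) (e c) + AX (b0 E) U' a c = (1 : Matrix (JJ E) (JJ E) ℝ) a c) ∧
  (∀ (a : JJ E) (l : List (JJ E)), nx (b0 E) U' a l = nx e U a l) ∧
  (∀ ψ : E → ℝ, GC ψ → ∃ ψ' : E → ℝ, GC ψ' ∧ cv U' ψ' ψ' = cv U ψ ψ ∧
    (∀ l, np (b0 E) U' ψ' l = np e U ψ l) ∧
    ∀ s θ, 0 ≤ s → ∃ V : E → ℝ, PP V t ∧ cv V ψ ψ = cv (pw U' s θ) ψ' ψ' ∧
      (∀ l, np e V ψ l = np (b0 E) (pw U' s θ) ψ' l) ∧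
      ∀ a c, cv V (li (e a)) (li (e c)) = AX (b0 E) (pw U' s θ) a c)

/-- FRM: from frames to all bases -/
def FRMStmt : Prop := ∀ (t : ℝ) (n : ℕ) (lam φ : ℝ), 0 ≤ lam → CB E t n lam φ → FB E t n lam φ

/-- XWB: cumulants of linear functions in a frame -/
def XWBStmt : Prop := ∀ (t φ : ℝ) (p : ℕ), 0 ≤ φ → EB E t p φ →
  ∀ (U : E → ℝ) (e : Module.Basis (JJ E) ℝ E), Fr E t U e → ∀ u : JJ E → ℝ,
  WS p (fun l => (∑ a, u a * nx e U a l) ^ 2) ≤ φ * ∑ a, u a ^ 2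

/-- APR: a priori bound -/
def APRStmt : Prop := ∀ t : ℝ, 0 < t → ∀ (n : ℕ) (lam : ℝ), 0 ≤ lam →
  ∃ φ : ℝ, 0 ≤ φ ∧ CB E t n lam φ

/-- EXT: one short step at a near extremal state -/
def EXTStmt : Prop := ∀ (t : ℝ) (n : ℕ) (lam φ : ℝ), 0 < t → 0 ≤ lam → 0 ≤ φ → FB E t n lam φ →
  ∃ C : ℝ, 0 ≤ C ∧ ∀ ε : ℝ, 0 < ε → ε ≤ 1 → ∀ (U : E → ℝ) (e : Module.Basis (JJ E) ℝ E),
  Fr E t U e → ∀ ψ : E → ℝ, GC ψ →
  (φ - ε) * cv U ψ ψ ≤ hs e U ψ (n + 2) + lam * hs e U ψ (n + 1) →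
  GX e U ψ (n + 1) + lam * GX e U ψ n + φ * hs e U ψ 1 ≤ C * Real.sqrt ε * cv U ψ ψ

/-- EB1: the bound of order one -/
def EB1Stmt : Prop := ∀ t : ℝ, EB E t 1 1

/-- EB2: the bound of order two, from Part A -/
def EB2Stmt : Prop := ∀ t C : ℝ, QK E t C → EB E t 2 C

/-- STP: one step of the induction -/
def STPStmt : Prop := ∀ (t κ : ℝ) (n : ℕ), 0 < t → 1 ≤ κ → 1 ≤ n → EB E t 2 κ →
  (∀ p ∈ Finset.Icc 1 (n + 1), EB E t p (tg κ p)) → CB E t n (lw κ n) (tg κ (n + 2))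

/-- IND: the induction -/
def INDStmt : Prop := ∀ t κ : ℝ, 0 < t → 1 ≤ κ → EB E t 2 κ → ∀ m : ℕ, 1 ≤ m →
  EB E t m (tg κ m)

/-- FIN: from frames to orthonormal bases, covariance at most one -/
def FINStmt : Prop := ∀ (t φ : ℝ) (m : ℕ), 0 ≤ φ → EB E t m φ →
  ∀ U : E → ℝ, PP U t → CovLe U 1 → ∀ ψ : E → ℝ, GC ψ →
  ∀ (ι : Type) [Fintype ι] (b : OrthonormalBasis ι ℝ E),
  hs b U ψ m ≤ 2 ^ m * φ * cv U ψ ψ

/-- FI1: order one, covariance at most one -/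
def FI1Stmt : Prop := ∀ (U : E → ℝ) (t : ℝ), PP U t → CovLe U 1 → ∀ ψ : E → ℝ, GC ψ →
  ∀ (ι : Type) [Fintype ι] (b : OrthonormalBasis ι ℝ E), hs b U ψ 1 ≤ cv U ψ ψ

end measures

/-- the conclusion of Part A -/
def QKAStmt : Prop := ∃ C : ℝ, 1 ≤ C ∧ ∀ (E : Type) [NormedAddCommGroup E]
  [InnerProductSpace ℝ E] [FiniteDimensional ℝ E] [MeasurableSpace E] [BorelSpace E] (t : ℝ),
  0 < t → QK E t C

/-- KBF: from Part A to the conclusion of Part B -/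
def KBFStmt : Prop := QKAStmt → Pool.Agent.H89.KD.KBStmt

end Pool.Agent.H35.KB
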