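import Pool.Agent.H35.KB.XWB
import Pool.Agent.H86.KB.US0
import Pool.Agent.H60.KB.USF
import Pool.Agent.H20.KB.TRF
import Pool.Agent.H86.KN.Ext

/-! # Project KB: one short step at a near extremal state -/

set_option autoImplicit false

open MeasureTheory Set Filter Topology
open scoped ContDiff

namespace Pool.Agent.H35.KB

open Pool.Agent.H84 Pool.Agent.H84.Sym Pool.Agent.H84.Sym.P2x Pool.Agent.H19.KL
open Pool.Agent.H73.KG Pool.Agent.H20.KH Pool.Agent.H52.KB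
open Pool.Agent.H55.KB (WS spl FL gN GG ML)

theorem ext35_gx {E : Type} [NormedAddCommGroup E] [InnerProductSpace ℝ E]
    [FiniteDimensional ℝ E] [MeasurableSpace E] [BorelSpace E] {ι : Type} [Fintype ι]
    (e f : ι → E) (U V ψ χ : E → ℝ) (h1 : ∀ a l, nx f V a l = nx e U a l)
    (h2 : ∀ l, np f V χ l = np e U ψ l) (n : ℕ) : GX f V χ n = GX e U ψ n := by
  have h3 : nx f V = nx e U := by funext a l; exact h1 a l
  have h4 : np f V χ = np e U ψ := funext h2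
  have h5 : AX f V = AX e U := by unfold AX; rw [h3]
  have h6 : TX f V = TX e U := by funext k a c; unfold TX; rw [h3]
  unfold GX
  rw [h3, h4, h5, h6]

theorem ext35_hs {E : Type} [NormedAddCommGroup E] [InnerProductSpace ℝ E]
    [FiniteDimensional ℝ E] [MeasurableSpace E] [BorelSpace E] {ι : Type} [Fintype ι]
    (e f : ι → E) (U V ψ χ : E → ℝ)
    (h2 : ∀ l, np f V χ l = np e U ψ l) (n : ℕ) : hs f V χ n = hs e U ψ n := by
  have h4 : np f V χ = np e U ψ := funext h2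
  unfold hs
  rw [h4]

theorem ext_thm (E : Type) [NormedAddCommGroup E] [InnerProductSpace ℝ E]
    [FiniteDimensional ℝ E] [MeasurableSpace E] [BorelSpace E] (hT : TRFStmt E)
    (h0 : US0Stmt E) (hF : USFStmt E) : EXTStmt E := by
  intro t n lam φ ht hlam hφ hFB
  obtain ⟨C₁, hC₁, h₁⟩ := hF t ht (n + 1)
  obtain ⟨C₂, hC₂, h₂⟩ := hF t ht n
  obtain ⟨C₃, hC₃, h₃⟩ := h0 t ht
  refine ⟨1 + C₁ + lam * C₂ + φ * C₃, by positivity, ?_⟩
  intro ε hε hε1 U e hfr ψ hψ hext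
  obtain ⟨U', hU', hgram, hnx, htr⟩ := hT t U e hfr
  obtain ⟨ψ', hψ', hcv, hnp, hpost⟩ := htr ψ hψ
  set s := Real.sqrt ε with hs'
  have hs0 : 0 < s := Real.sqrt_pos.2 hε
  have hss : s ^ 2 = ε := Real.sq_sqrt hε.le
  have hs1 : s ≤ 1 := by
    rw [hs']
    exact Real.sqrt_le_one.2 hε1
  set ρ : Matrix (JJ E) (JJ E) ℝ := Matrix.of fun a c => inner ℝ (e a) (e c) with hρ
  have hρ1 : ρ + AX (b0 E) U' = 1 := by
    ext a c
    exact hgram a c
  have hnorm : ∀ a, ‖e a‖ ≤ 1 := by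
    intro a
    have h := congrFun (congrFun hfr.orth a) a
    simp only [PG, Matrix.of_apply, Matrix.one_apply_eq] at h
    have h2 := ((bas_thm E).2.2.2.1 U t hfr.pp _ _ (BAS_li (e a)) (BAS_li (e a))).2.1
    rw [real_inner_self_eq_norm_sq] at h
    nlinarith [norm_nonneg (e a)]
  have hρ2 : ∀ a c, |ρ a c| ≤ 1 := by
    intro a c
    rw [hρ, Matrix.of_apply]
    refine le_trans (abs_real_inner_le_norm _ _) ?_
    nlinarith [hnorm a, hnorm c, norm_nonneg (e a), norm_nonneg (e c)]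
  have hv0 : 0 ≤ cv U ψ ψ := ((bas_thm E).2.2.2.1 U t hfr.pp ψ ψ hψ hψ).2.1
  obtain ⟨g₁, a₁⟩ := h₁ U' hU' ρ hρ2 hρ1 ψ' hψ' s hs0 hs1
  obtain ⟨g₂, a₂⟩ := h₂ U' hU' ρ hρ2 hρ1 ψ' hψ' s hs0 hs1
  have a₃ := h₃ U' hU' ψ' hψ' s hs0 hs1
  rw [ext35_hs (e : JJ E → E) (b0 E) U U' ψ ψ' hnp,
    ext35_gx (e : JJ E → E) (b0 E) U U' ψ ψ' hnx hnp, hcv] at a₁ a₂
  rw [ext35_hs (e : JJ E → E) (b0 E) U U' ψ ψ' hnp, hcv] at a₃
  have b₁ := (abs_le.1 a₁).1
  have b₂ := (abs_le.1 a₂).1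
  have b₃ := (abs_le.1 a₃).2
  have g₃ : GC (fun θ => cv (pw U' s θ) ψ' ψ') :=
    Pool.Agent.H86.KN.GC_rg (Pool.Agent.H86.KN.qCVR E U' t hU' ψ' ψ' hψ' hψ') hs0
  obtain ⟨-, hadd, hmul, -, hmono, -, -⟩ := Pool.Agent.H86.KN.qBAY E U' t hU' s hs0.le
  have g₂' := (GC.const lam).mul g₂
  have hle : ∀ θ, FL (ρ + AX (b0 E) (pw U' s θ)) (n + 1) (np (b0 E) (pw U' s θ) ψ') +
      lam * FL (ρ + AX (b0 E) (pw U' s θ)) n (np (b0 E) (pw U' s θ) ψ') ≤
      φ * cv (pw U' s θ) ψ' ψ' := by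
    intro θ
    obtain ⟨V, hV, hVc, hVn, hVx⟩ := hpost s θ hs0.le
    have h := hFB V hV e ψ hψ
    have hP : PG e V = ρ + AX (b0 E) (pw U' s θ) := by
      ext a c
      simp only [PG, Matrix.of_apply, Matrix.add_apply, hρ]
      rw [hVx a c]
    have hn : np e V ψ = np (b0 E) (pw U' s θ) ψ' := funext hVn
    rw [hP, hn, hVc] at h
    exact h
  have e2 := hmono _ _ (g₁.add g₂') ((GC.const φ).mul g₃) hle
  rw [hadd _ _ g₁ g₂', hmul, hmul] at e2
  have e3 := mul_le_mul_of_nonneg_left b₂ hlam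
  have e4 := mul_le_mul_of_nonneg_left b₃ hφ
  set V := cv U ψ ψ with hV
  set G₁ := GX e U ψ (n + 1)
  set G₂ := GX e U ψ n
  set W := hs e U ψ 1
  have key : s * (G₁ + lam * G₂ + φ * W) ≤
      s * ((1 + C₁ + lam * C₂ + φ * C₃) * s * V) := by
    have hn : n + 1 + 1 = n + 2 := rfl
    simp only [hn] at *
    nlinarith
  exact le_of_mul_le_mul_left key hs0

end Pool.Agent.H35.KB
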