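import Pool.Agent.H35.KB.STP

/-! # Project KB: the induction -/

set_option autoImplicit false

open MeasureTheory Set Filter Topology
open scoped ContDiff

namespace Pool.Agent.H35.KB

open Pool.Agent.H84 Pool.Agent.H84.Sym Pool.Agent.H84.Sym.P2x Pool.Agent.H19.KL
open Pool.Agent.H73.KG Pool.Agent.H20.KH Pool.Agent.H52.KB
open Pool.Agent.H55.KB (WS spl FL gN GG ML)

theorem ind_thm (E : Type) [NormedAddCommGroup E] [InnerProductSpace ℝ E]
    [FiniteDimensional ℝ E] [MeasurableSpace E] [BorelSpace E] (h1 : EB1Stmt E)
    (hS : STPStmt E) : INDStmt E := by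
  intro t κ ht hκ h2 m
  induction m using Nat.strong_induction_on with
  | _ m ih =>
    intro hm
    rcases Nat.lt_or_ge m 3 with h3 | h3
    · rcases Nat.lt_or_ge m 2 with h4 | h4
      · have : m = 1 := by omega
        subst this
        have h5 : tg κ 1 = 1 := by simp [tg]
        rw [h5]
        exact h1 t
      · have : m = 2 := by omega
        subst this
        intro U e hF ψ hψ
        have h5 : tg κ 2 = 400 * κ := by
          simp [tg, Nat.factorial]
          ring
        have hv0 : 0 ≤ cv U ψ ψ := ((bas_thm E).2.2.2.1 U t hF.pp ψ ψ hψ hψ).2.1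
        rw [h5]
        have h6 := h2 U e hF ψ hψ
        nlinarith
    · obtain ⟨n, rfl⟩ : ∃ n, m = n + 2 := ⟨m - 2, by omega⟩
      have h := hS t κ n ht hκ (by omega) h2 (fun p hp => by
        rw [Finset.mem_Icc] at hp
        exact ih p (by omega) hp.1)
      intro U e hF ψ hψ
      have h5 := h U e hF ψ hψ
      have h6 := mul_nonneg (show 0 ≤ lw κ n by unfold lw; positivity)
        (stp_hs_nonneg (e : JJ E → E) U ψ (n + 1))
      linarith

end Pool.Agent.H35.KB
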