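import Pool.Agent.H35.KB.Stmts
import Pool.Agent.H33.KG.BAS
import Pool.Agent.H27.KB.NDB

/-!
# Project KB: the conclusion of Part B
-/

set_option autoImplicit false

open MeasureTheory Set Filter Topology
open scoped ContDiff

namespace Pool.Agent.H35.KB

open Pool.Agent.H84 Pool.Agent.H84.Sym Pool.Agent.H84.Sym.P2x Pool.Agent.H19.KL
open Pool.Agent.H73.KG Pool.Agent.H20.KH Pool.Agent.H52.KB
open Pool.Agent.H55.KB (WS spl FL gN GG ML)

theorem kbf_kmu {E : Type} [NormedAddCommGroup E] [InnerProductSpace ℝ E]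
    [FiniteDimensional ℝ E] [MeasurableSpace E] [BorelSpace E] (U : E → ℝ) (m : ℕ) (K : ℝ)
    (h : ∀ ψ : E → ℝ, GC ψ → ∀ (ι : Type) [Fintype ι] (b : OrthonormalBasis ι ℝ E),
      hs b U ψ m ≤ K * cv U ψ ψ) : Pool.Agent.H89.KD.KMU U m K := by
  intro ψ hψ ι _ b
  refine le_trans (le_of_eq ?_) (h ψ hψ ι b)
  unfold hs WS
  refine Finset.sum_congr rfl fun w _ => ?_
  rw [Pool.Agent.H27.KB.nd_eq]
  have h1 : Pool.Agent.H89.KD.wl (fun j => b j) w = (List.ofFn w).map b := by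
    rw [List.map_ofFn]
    rfl
  show ND U ψ (Pool.Agent.H89.KD.wl (fun j => b j) w) 0 0 ^ 2 = np b U ψ (List.ofFn w) ^ 2
  rw [h1]
  rfl

theorem kbf_num {κ : ℝ} (hκ : 1 ≤ κ) {m : ℕ} (hm : 2 ≤ m) :
    2 ^ m * tg κ m ≤ (m.factorial : ℝ) ^ 2 * (400 * κ) ^ (m - 1) := by
  unfold tg
  obtain ⟨n, rfl⟩ : ∃ n, m = n + 2 := ⟨m - 2, by omega⟩
  have h1 : (400 * κ) ^ (n + 2 - 1) = 4 ^ (n + 1) * (100 * κ) ^ (n + 1) := by
    rw [show n + 2 - 1 = n + 1 by omega, ← mul_pow]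
    congr 1; ring
  have h2 : (2:ℝ) ^ (n + 2) ≤ 4 ^ (n + 1) := by
    have : (4:ℝ) ^ (n + 1) = 2 ^ (n + 2) * 2 ^ n := by
      rw [show (4:ℝ) = 2 ^ 2 by norm_num, ← pow_mul, ← pow_add]
      congr 1; ring
    rw [this]
    have h3 : (1:ℝ) ≤ 2 ^ n := one_le_pow₀ (by norm_num)
    nlinarith [pow_pos (show (0:ℝ) < 2 by norm_num) (n + 2)]
  rw [h1, show n + 2 - 1 = n + 1 by omega]
  have h4 : (0:ℝ) ≤ (100 * κ) ^ (n + 1) * ((n + 2).factorial : ℝ) ^ 2 := by positivity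
  nlinarith [mul_le_mul_of_nonneg_right h2 h4]

theorem kbf_thm
    (hE2 : ∀ (E : Type) [NormedAddCommGroup E] [InnerProductSpace ℝ E]
      [FiniteDimensional ℝ E] [MeasurableSpace E] [BorelSpace E], EB2Stmt E)
    (hI : ∀ (E : Type) [NormedAddCommGroup E] [InnerProductSpace ℝ E]
      [FiniteDimensional ℝ E] [MeasurableSpace E] [BorelSpace E], INDStmt E)
    (hF : ∀ (E : Type) [NormedAddCommGroup E] [InnerProductSpace ℝ E]
      [FiniteDimensional ℝ E] [MeasurableSpace E] [BorelSpace E], FINStmt E)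
    (hF1 : ∀ (E : Type) [NormedAddCommGroup E] [InnerProductSpace ℝ E]
      [FiniteDimensional ℝ E] [MeasurableSpace E] [BorelSpace E], FI1Stmt E) : KBFStmt := by
  rintro ⟨κ, hκ, hA⟩
  refine ⟨400 * κ, by linarith, ?_⟩
  intro E _ _ _ _ _ U t hU hc m hm
  refine kbf_kmu U m _ ?_
  intro ψ hψ ι _ b
  have ht : 0 < t := by
    obtain ⟨⟨C, hC⟩, -⟩ := hU
    exact hC.pos
  have hv0 : 0 ≤ cv U ψ ψ := ((bas_thm E).2.2.2.1 U t hU ψ ψ hψ hψ).2.1
  rcases Nat.lt_or_ge 1 m with h2 | h2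
  · have hEB := hI E t κ ht hκ (hE2 E t κ (hA E t ht)) m hm
    have htg0 : 0 ≤ tg κ m := by unfold tg; positivity
    have h := hF E t (tg κ m) m htg0 hEB U hU hc ψ hψ ι b
    exact le_trans h (mul_le_mul_of_nonneg_right (kbf_num hκ h2) hv0)
  · have hm1 : m = 1 := by omega
    subst hm1
    have h := hF1 E U t hU hc ψ hψ ι b
    simpa using h

end Pool.Agent.H35.KB
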