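import Pool.Agent.H35.KB.Stmts
import Pool.Agent.H33.KG.BAS
import Pool.Agent.H52.KB.NPB

/-! # Project KB: cumulants of linear functions in a frame -/

set_option autoImplicit false

open MeasureTheory Set Filter Topology
open scoped ContDiff

namespace Pool.Agent.H35.KB

open Pool.Agent.H84 Pool.Agent.H84.Sym Pool.Agent.H84.Sym.P2x Pool.Agent.H19.KL
open Pool.Agent.H73.KG Pool.Agent.H20.KH Pool.Agent.H52.KB
open Pool.Agent.H55.KB (WS spl FL gN GG ML)

section

variable {E : Type} [NormedAddCommGroup E] [InnerProductSpace ℝ E]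
    [FiniteDimensional ℝ E] [MeasurableSpace E] [BorelSpace E]

/-- the variance of a linear function in a frame -/
theorem xwb_var {t : ℝ} {U : E → ℝ} {e : Module.Basis (JJ E) ℝ E} (hF : Fr E t U e)
    (u : JJ E → ℝ) :
    cv U (li (∑ a, u a • e a)) (li (∑ a, u a • e a)) ≤ ∑ a, u a ^ 2 := by
  obtain ⟨hml, h12, hsw, hli, -⟩ := npb_thm E U t hF.pp
  have hg : ∀ v : E, GC (li v) := fun v => BAS_li v
  have h1 : ∀ w : E, cv U (li (∑ a, u a • e a)) (li w) = ∑ a, u a * cv U (li (e a)) (li w) := by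
    intro w
    rw [← (h12 _ (hg _) w w).1, hli (JJ E) e u [w]]
    exact Finset.sum_congr rfl fun a _ => by rw [(h12 _ (hg _) w w).1]
  have h2 : ∀ v w : E, cv U (li v) (li w) = cv U (li w) (li v) := fun v w =>
    ((bas_thm E).2.2.2.1 U t hF.pp _ _ (hg v) (hg w)).2.2.1
  have h3 : cv U (li (∑ a, u a • e a)) (li (∑ a, u a • e a)) =
      ∑ a, u a * ∑ c, u c * cv U (li (e c)) (li (e a)) := by
    rw [h1]
    refine Finset.sum_congr rfl fun a _ => ?_
    rw [h2, h1]
  have h4 : ∑ a, u a * ∑ c, u c * inner ℝ (e c) (e a) = ‖∑ a, u a • e a‖ ^ 2 := by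
    rw [← real_inner_self_eq_norm_sq, sum_inner]
    simp only [inner_sum, inner_smul_left, inner_smul_right, Finset.mul_sum]
    refine Finset.sum_congr rfl fun a _ => Finset.sum_congr rfl fun c _ => ?_
    rw [real_inner_comm]
    simp
    ring
  have h5 : ∀ a c, cv U (li (e c)) (li (e a)) =
      (if a = c then 1 else 0) - inner ℝ (e c) (e a) := by
    intro a c
    have h := congrFun (congrFun hF.orth c) a
    simp only [PG, Matrix.of_apply, Matrix.one_apply] at h
    rw [show (if a = c then (1:ℝ) else 0) = if c = a then 1 else 0 by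
      simp only [eq_comm], ← h]
    ring
  have h6 : ∑ a, u a * ∑ c, u c * cv U (li (e c)) (li (e a)) =
      ∑ a, u a ^ 2 - ‖∑ a, u a • e a‖ ^ 2 := by
    rw [← h4, ← Finset.sum_sub_distrib]
    refine Finset.sum_congr rfl fun a _ => ?_
    simp only [h5, mul_sub, Finset.sum_sub_distrib, mul_ite, mul_one, mul_zero,
      Finset.sum_ite_eq, Finset.mem_univ, if_true]
    ring
  rw [h3, h6]
  nlinarith [sq_nonneg ‖∑ a, u a • e a‖]

end

theorem xwb_thm (E : Type) [NormedAddCommGroup E] [InnerProductSpace ℝ E]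
    [FiniteDimensional ℝ E] [MeasurableSpace E] [BorelSpace E] : XWBStmt E := by
  intro t φ p hφ hEB U e hF u
  obtain ⟨hml, h12, hsw, hli, -⟩ := npb_thm E U t hF.pp
  have h1 := hEB U e hF (li (∑ a, u a • e a)) (BAS_li _)
  have h2 : ∀ l : List (JJ E), np e U (li (∑ a, u a • e a)) l = ∑ a, u a * nx e U a l := by
    intro l
    exact hli (JJ E) e u (l.map e)
  unfold hs at h1
  simp only [h2] at h1
  exact le_trans h1 (mul_le_mul_of_nonneg_left (xwb_var hF u) hφ)

end Pool.Agent.H35.KB
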