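import Pool.Agent.H35.KB.STP
import Pool.Agent.H35.KB.KBF
import Pool.Agent.H35.KB.IND
import Pool.Agent.H35.KB.XWB
import Pool.Agent.H35.KB.EB1
import Pool.Agent.H35.KB.EXT
import Pool.Agent.H52.KB.NPB
import Pool.Agent.H86.KB.US0
import Pool.Agent.H60.KB.USF
import Pool.Agent.H20.KB.TRF
import Pool.Agent.H55.KB.FRMX
import Pool.Agent.H85.KB.APR
import Pool.Agent.H79.KB.EB2

/-!
# Project KB (Part B of the full KLS theorem): assembly
-/

set_option autoImplicit false

open MeasureTheory Set Filter Topology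
open scoped ContDiff

namespace Pool.Agent.H35.KB.All

open Pool.Agent.H84 Pool.Agent.H84.Sym Pool.Agent.H84.Sym.P2x Pool.Agent.H19.KL
open Pool.Agent.H73.KG Pool.Agent.H20.KH Pool.Agent.H35.KB

section

variable (E : Type) [NormedAddCommGroup E] [InnerProductSpace ℝ E]
    [FiniteDimensional ℝ E] [MeasurableSpace E] [BorelSpace E]

theorem aNPB : NPBStmt E := Pool.Agent.H52.KB.npb_thm E

theorem aUS0 : US0Stmt E := us0_thm E

theorem aUSF : USFStmt E := Pool.Agent.H60.KB.usf_thm E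

theorem aTRF : TRFStmt E := trf_thm E

theorem aFRM : FRMStmt E := frm_thm E (aNPB E)

theorem aXWB : XWBStmt E := xwb_thm E

theorem aAPR : APRStmt E := Pool.Agent.H85.KB.apr_thm E (aTRF E)

theorem aEXT : EXTStmt E := ext_thm E (aTRF E) (aUS0 E) (aUSF E)

theorem aEB1 : EB1Stmt E := eb1_thm E

theorem aEB2 : EB2Stmt E := eb2_thm E (aNPB E) (aTRF E)

theorem aSTP : STPStmt E := stp_thm E (aNPB E) (aFRM E) (aXWB E) (aAPR E) (aEXT E)

theorem aIND : INDStmt E := ind_thm E (aEB1 E) (aSTP E)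

theorem aFIN : FINStmt E := fin_thm E (aNPB E)

theorem aFI1 : FI1Stmt E := fi1_thm E

end

/-- Part B: from the universal quadratic constant to the bounds of all orders -/
theorem aKBF : KBFStmt :=
  kbf_thm (fun E _ _ _ _ _ => aEB2 E) (fun E _ _ _ _ _ => aIND E) (fun E _ _ _ _ _ => aFIN E)
    (fun E _ _ _ _ _ => aFI1 E)

end Pool.Agent.H35.KB.All
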