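import Pool.Agent.H20.KH.Stmts
import Pool.Agent.H52.KB.NDC
import Pool.Agent.H55.KB.Defs

/-!
# Project KB (Part B of the full KLS theorem): definitions

`ND U ψ l s θ` (helper52) is the iterated derivative in `θ` (along the list `l` of vectors) of the
posterior mean of `ψ`; for `s = 0`, `θ = 0` it is the joint cumulant of `ψ` and of the linear
functions of the vectors of `l` for `mu U`.  Words are lists of indices, mapped to lists of vectors
by a family `e`.  Sums over words `WS`, splittings `spl`, the linear functional `FL`, the drift `gN`,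
the generator `GG` are those of helper55.
-/

set_option autoImplicit false

open MeasureTheory Set Filter Topology
open scoped ContDiff

namespace Pool.Agent.H35.KB

open Pool.Agent.H84 Pool.Agent.H84.Sym Pool.Agent.H84.Sym.P2x Pool.Agent.H19.KL
open Pool.Agent.H73.KG Pool.Agent.H20.KH Pool.Agent.H52.KB
open Pool.Agent.H55.KB (WS spl FL gN GG ML)

/-- the bounds which are proved by induction -/
noncomputable def tg (κ : ℝ) (m : ℕ) : ℝ := (100 * κ) ^ (m - 1) * (m.factorial : ℝ) ^ 2

/-- the weight of the second term -/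
noncomputable def lw (κ : ℝ) (n : ℕ) : ℝ := 16 * ((n : ℝ) + 2) ^ 2 * κ

section measures

variable {E : Type} [NormedAddCommGroup E] [InnerProductSpace ℝ E]
    [FiniteDimensional ℝ E] [MeasurableSpace E] [BorelSpace E]

variable (E) in
/-- the index type -/
abbrev JJ : Type := Fin (Module.finrank ℝ E)

variable (E) in
/-- the fixed orthonormal basis -/
noncomputable abbrev b0 : OrthonormalBasis (JJ E) ℝ E := stdOrthonormalBasis ℝ E

/-- cumulants of the function `ψ` along the words in the vectors `e` -/
noncomputable def np {ι : Type} (e : ι → E) (U ψ : E → ℝ) (l : List ι) : ℝ :=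
  ND U ψ (l.map e) 0 0

/-- cumulants of the linear function of `e a` -/
noncomputable def nx {ι : Type} (e : ι → E) (U : E → ℝ) (a : ι) (l : List ι) : ℝ :=
  ND U (li (e a)) (l.map e) 0 0

/-- the covariance matrix as cumulants -/
noncomputable def AX {ι : Type} (e : ι → E) (U : E → ℝ) : Matrix ι ι ℝ :=
  Matrix.of fun a c => nx e U a [c]

/-- the third moments as cumulants -/
noncomputable def TX {ι : Type} (e : ι → E) (U : E → ℝ) (k a c : ι) : ℝ := nx e U a [k, c]

/-- Gram matrix plus covariance matrix -/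
noncomputable def PG {ι : Type} (e : ι → E) (U : E → ℝ) : Matrix ι ι ℝ :=
  Matrix.of fun a c => inner ℝ (e a) (e c) + cv U (li (e a)) (li (e c))

variable (E) in
/-- frames: bases which are orthonormal for the scalar product plus the covariance -/
structure Fr (t : ℝ) (U : E → ℝ) (e : Module.Basis (JJ E) ℝ E) : Prop where
  pp : PP U t
  orth : PG e U = 1

/-- squared norm of the cumulants of order `m` -/
noncomputable def hs {ι : Type} [Fintype ι] (e : ι → E) (U ψ : E → ℝ) (m : ℕ) : ℝ :=
  WS m (fun l => np e U ψ l ^ 2)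

/-- the generator of the functional at a frame -/
noncomputable def GX {ι : Type} [Fintype ι] (e : ι → E) (U ψ : E → ℝ) (n : ℕ) : ℝ :=
  GG (AX e U) (TX e U) n (np e U ψ) (gN (nx e U) (np e U ψ))

variable (E) in
/-- bound of order `m` for all frames -/
def EB (t : ℝ) (m : ℕ) (φ : ℝ) : Prop := ∀ (U : E → ℝ) (e : Module.Basis (JJ E) ℝ E), Fr E t U e →
  ∀ ψ : E → ℝ, GC ψ → hs e U ψ m ≤ φ * cv U ψ ψ

variable (E) in
/-- combined bound of orders `n + 2` and `n + 1` for all frames -/
def CB (t : ℝ) (n : ℕ) (lam φ : ℝ) : Prop :=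
  ∀ (U : E → ℝ) (e : Module.Basis (JJ E) ℝ E), Fr E t U e → ∀ ψ : E → ℝ, GC ψ →
    hs e U ψ (n + 2) + lam * hs e U ψ (n + 1) ≤ φ * cv U ψ ψ

variable (E) in
/-- the combined bound for all bases -/
def FB (t : ℝ) (n : ℕ) (lam φ : ℝ) : Prop :=
  ∀ (U : E → ℝ), PP U t → ∀ (e : Module.Basis (JJ E) ℝ E) (ψ : E → ℝ), GC ψ →
    FL (PG e U) (n + 1) (np e U ψ) + lam * FL (PG e U) n (np e U ψ) ≤ φ * cv U ψ ψ

end measures

end Pool.Agent.H35.KB
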