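import Pool.Agent.H35.KB.Stmts
import Pool.Agent.H55.KB.LOW
import Pool.Agent.H55.KB.NUM
import Pool.Agent.H33.KG.BAS

/-!
# Project KB: one step of the induction
-/

set_option autoImplicit false

open MeasureTheory Set Filter Topology
open scoped ContDiff

namespace Pool.Agent.H35.KB

open Pool.Agent.H84 Pool.Agent.H84.Sym Pool.Agent.H84.Sym.P2x Pool.Agent.H19.KL
open Pool.Agent.H73.KG Pool.Agent.H20.KH Pool.Agent.H52.KB
open Pool.Agent.H55.KB (WS spl FL gN GG ML)

/-- the lower bound in scaled form -/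
noncomputable def stp_low (κ : ℝ) (φ e : ℕ → ℝ) (n : ℕ) : ℝ :=
  e (n + 2) - 2 * ((n:ℝ) + 1) * Real.sqrt (κ * e (n + 1)) * Real.sqrt (e (n + 2)) -
    2 * Real.sqrt (e (n + 1)) * ∑ p ∈ Finset.Icc 1 (n + 1), ((n + 1).choose p : ℝ) *
      Real.sqrt (φ p * e (n + 2 - p))

theorem stp_sqrt {v : ℝ} (hv : 0 ≤ v) (c a : ℝ) :
    Real.sqrt (c * (v * a)) = Real.sqrt v * Real.sqrt (c * a) := by
  rw [show c * (v * a) = v * (c * a) by ring, Real.sqrt_mul hv]

theorem stp_scale (κ : ℝ) (φ e : ℕ → ℝ) (n : ℕ) {v : ℝ} (hv : 0 ≤ v) :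
    stp_low κ φ (fun j => v * e j) n = v * stp_low κ φ e n := by
  unfold stp_low
  have h1 : Real.sqrt v * Real.sqrt v = v := Real.mul_self_sqrt hv
  have h2 : ∀ a : ℝ, Real.sqrt (v * a) = Real.sqrt v * Real.sqrt a := fun a => Real.sqrt_mul hv a
  simp only [stp_sqrt hv, h2]
  have h3 : ∑ p ∈ Finset.Icc 1 (n + 1), ((n + 1).choose p : ℝ) *
      (Real.sqrt v * Real.sqrt (φ p * e (n + 2 - p))) =
      Real.sqrt v * ∑ p ∈ Finset.Icc 1 (n + 1), ((n + 1).choose p : ℝ) *
        Real.sqrt (φ p * e (n + 2 - p)) := by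
    rw [Finset.mul_sum]
    exact Finset.sum_congr rfl fun p _ => by ring
  rw [h3]
  set S := ∑ p ∈ Finset.Icc 1 (n + 1), ((n + 1).choose p : ℝ) *
        Real.sqrt (φ p * e (n + 2 - p))
  set a := Real.sqrt (κ * e (n + 1))
  set b := Real.sqrt (e (n + 2))
  set c := Real.sqrt (e (n + 1))
  have h4 : 2 * ((n:ℝ) + 1) * (Real.sqrt v * a) * (Real.sqrt v * b) =
      v * (2 * ((n:ℝ) + 1) * a * b) := by
    calc 2 * ((n:ℝ) + 1) * (Real.sqrt v * a) * (Real.sqrt v * b) =
        (Real.sqrt v * Real.sqrt v) * (2 * ((n:ℝ) + 1) * a * b) := by ring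
      _ = _ := by rw [h1]
  have h5 : 2 * (Real.sqrt v * c) * (Real.sqrt v * S) = v * (2 * c * S) := by
    calc 2 * (Real.sqrt v * c) * (Real.sqrt v * S) =
        (Real.sqrt v * Real.sqrt v) * (2 * c * S) := by ring
      _ = _ := by rw [h1]
  rw [h4, h5]
  ring

section

variable {E : Type} [NormedAddCommGroup E] [InnerProductSpace ℝ E]
    [FiniteDimensional ℝ E] [MeasurableSpace E] [BorelSpace E]

theorem stp_hs_nonneg {ι : Type} [Fintype ι] (e : ι → E) (U ψ : E → ℝ) (m : ℕ) :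
    0 ≤ hs e U ψ m := by
  unfold hs
  rw [Pool.Agent.H55.KB.WS_eq_LS]
  exact Pool.Agent.H55.KB.LS_nonneg m fun l => sq_nonneg _

/-- the lower bound for the generator in a frame -/
theorem stp_gx (hN : NPBStmt E) (hX : XWBStmt E) {t : ℝ} {U : E → ℝ}
    {e : Module.Basis (JJ E) ℝ E} (hF : Fr E t U e) (κ : ℝ) (hκ : 0 ≤ κ) (h2 : EB E t 2 κ)
    (n : ℕ) (φ : ℕ → ℝ) (hφ0 : ∀ p, 0 ≤ φ p)
    (hφ : ∀ p, 1 ≤ p → p ≤ n + 1 → EB E t p (φ p)) (ψ : E → ℝ) :
    stp_low κ φ (fun j => hs e U ψ j) n ≤ GX e U ψ n := by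
  obtain ⟨-, -, -, -, hsym⟩ := hN U t hF.pp
  have hA : (AX e U).transpose = AX e U := by
    ext a c
    simp only [Matrix.transpose_apply, AX, Matrix.of_apply]
    exact (hsym (JJ E) e c a a).1
  have hT : ∀ y : JJ E → ℝ, ∑ k, ∑ a, (∑ b, TX e U k a b * y b) ^ 2 ≤ κ * ∑ b, y b ^ 2 := by
    intro y
    have h := hX t κ 2 hκ h2 U e hF y
    rw [Pool.Agent.H55.KB.WS_succ] at h
    refine le_trans (le_of_eq ?_) h
    refine Finset.sum_congr rfl fun k _ => ?_
    rw [Pool.Agent.H55.KB.WS_succ]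
    refine Finset.sum_congr rfl fun a _ => ?_
    rw [Pool.Agent.H55.KB.WS_zero]
    congr 1
    refine Finset.sum_congr rfl fun b _ => ?_
    rw [TX, (hsym (JJ E) e a k b).2.1]
    ring
  have h := Pool.Agent.H55.KB.low_thm (AX e U) (TX e U) (nx e U) (np e U ψ) n φ κ hA hT
    (fun p hp1 hp2 c => hX t (φ p) p (hφ0 p) (hφ p hp1 hp2) U e hF c)
  exact h

end

theorem stp_thm (E : Type) [NormedAddCommGroup E] [InnerProductSpace ℝ E]
    [FiniteDimensional ℝ E] [MeasurableSpace E] [BorelSpace E] (hN : NPBStmt E)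
    (hFR : FRMStmt E) (hX : XWBStmt E) (hAP : APRStmt E) (hEX : EXTStmt E) : STPStmt E := by
  intro t κ n ht hκ hn h2 hEB
  set lam : ℝ := lw κ n with hlam
  have hlam0 : 0 ≤ lam := by
    rw [hlam, lw]; positivity
  set tt : ℝ := tg κ (n + 2) with htt
  have htt0 : 0 < tt := by
    rw [htt, tg]
    have : (0:ℝ) < ((n + 2).factorial : ℝ) := by exact_mod_cast Nat.factorial_pos _
    positivity
  have hcv : ∀ (U : E → ℝ), PP U t → ∀ ψ : E → ℝ, GC ψ → 0 ≤ cv U ψ ψ := fun U hU ψ hψ =>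
    ((bas_thm E).2.2.2.1 U t hU ψ ψ hψ hψ).2.1
  have hmono : ∀ a b : ℝ, a ≤ b → CB E t n lam a → CB E t n lam b := by
    intro a b hab h U e hF ψ hψ
    exact le_trans (h U e hF ψ hψ) (mul_le_mul_of_nonneg_right hab (hcv U hF.pp ψ hψ))
  -- the key claim
  have key : ∀ φ : ℝ, tt < φ → CB E t n lam φ → ∃ φ' : ℝ, tt ≤ φ' ∧ φ' < φ ∧
      CB E t n lam φ' := by
    intro φ hφ hCB
    have hφ0 : 0 ≤ φ := le_trans htt0.le hφ.le
    obtain ⟨C, hC0, hC⟩ := hEX t n lam φ ht hlam0 hφ0 (hFR t n lam φ hlam0 hCB)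
    -- choice of eps
    set r : ℝ := min 1 (min (φ - tt) (tt / (4 + 16 * C))) with hr
    have hr0 : 0 < r := by
      refine lt_min one_pos (lt_min (sub_pos.2 hφ) (by positivity))
    have hr1 : r ≤ 1 := min_le_left _ _
    have hr2 : r ≤ φ - tt := le_trans (min_le_right _ _) (min_le_left _ _)
    have hr3 : r ≤ tt / (4 + 16 * C) := le_trans (min_le_right _ _) (min_le_right _ _)
    set ε : ℝ := r ^ 2 with hε
    have hε0 : 0 < ε := by positivity
    have hεr : ε ≤ r := by rw [hε]; nlinarith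
    have hε1 : ε ≤ 1 := le_trans hεr hr1
    have hsε : Real.sqrt ε = r := by rw [hε, Real.sqrt_sq hr0.le]
    refine ⟨φ - ε, by linarith, by linarith, ?_⟩
    by_contra hcon
    unfold CB at hcon
    push Not at hcon
    obtain ⟨U, e, hF, ψ, hψ, hlt⟩ := hcon
    have hv0 := hcv U hF.pp ψ hψ
    set v : ℝ := cv U ψ ψ with hv
    have hvpos : 0 < v := by
      rcases hv0.lt_or_eq with h | h
      · exact h
      · exfalso
        have h1 := hCB U e hF ψ hψ
        rw [← hv, ← h] at h1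
        rw [← h] at hlt
        simp only [mul_zero] at h1 hlt
        linarith
    have hG := hC ε hε0 hε1 U e hF ψ hψ hlt.le
    rw [hsε, ← hv] at hG
    set φf : ℕ → ℝ := fun p => if p = n + 2 then φ else tg κ p with hφf
    have htg0 : ∀ p, 0 ≤ tg κ p := fun p => by unfold tg; positivity
    have hφf0 : ∀ p, 0 ≤ φf p := by
      intro p
      simp only [hφf]
      split_ifs
      · exact hφ0
      · exact htg0 p
    have hEBtop : EB E t (n + 2) φ := by
      intro U' e' hF' ψ' hψ'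
      have h1 := hCB U' e' hF' ψ' hψ'
      have h2 := mul_nonneg hlam0 (stp_hs_nonneg (e' : JJ E → E) U' ψ' (n + 1))
      linarith
    have hEBf : ∀ p, 1 ≤ p → p ≤ n + 2 → EB E t p (φf p) := by
      intro p hp1 hp2
      simp only [hφf]
      split_ifs with hp
      · rw [hp]; exact hEBtop
      · exact hEB p (Finset.mem_Icc.2 ⟨hp1, by omega⟩)
    have hκ0 : (0:ℝ) ≤ κ := by linarith
    have hg1 := stp_gx hN hX hF κ hκ0 h2 (n + 1) φf hφf0 (fun p h1 h2 => hEBf p h1 (by omega)) ψ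
    have hg2 := stp_gx hN hX hF κ hκ0 h2 n φf hφf0 (fun p h1 h2 => hEBf p h1 (by omega)) ψ
    -- scaling
    set ee : ℕ → ℝ := fun j => hs e U ψ j / v with hee
    have hev : ∀ j, hs e U ψ j = v * ee j := fun j => by
      rw [hee]
      field_simp
    have hfun : (fun j => hs e U ψ j) = fun j => v * ee j := funext hev
    rw [hfun, stp_scale κ φf ee _ hv0] at hg1 hg2
    have hmain : stp_low κ φf ee (n + 1) + lam * stp_low κ φf ee n + φ * ee 1 ≤ C * r := by
      have h1 : v * (stp_low κ φf ee (n + 1) + lam * stp_low κ φf ee n + φ * ee 1) ≤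
          v * (C * r) := by
        have h3 : v * (stp_low κ φf ee (n + 1) + lam * stp_low κ φf ee n + φ * ee 1) =
            v * stp_low κ φf ee (n + 1) + lam * (v * stp_low κ φf ee n) + φ * hs e U ψ 1 := by
          rw [hev 1]; ring
        have h4 := mul_le_mul_of_nonneg_left hg2 hlam0
        rw [h3]
        nlinarith
      exact le_of_mul_le_mul_left h1 hvpos
    have hee0 : ∀ j, 0 ≤ ee j := fun j => div_nonneg (stp_hs_nonneg _ U ψ j) hv0
    have hle : ∀ j, 1 ≤ j → j < n + 2 → ee j ≤ φf j := by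
      intro j hj1 hj2
      have h1 := hEBf j hj1 (by omega) U e hF ψ hψ
      rw [hee]
      simp only
      rw [div_le_iff₀ hvpos]
      exact h1
    have hff : φf (n + 2) = φ := by simp [hφf]
    have hres := Pool.Agent.H55.KB.num_step n hn κ κ hκ hκ0 le_rfl φf ee ε (C * r)
      (by positivity) hφf0 (by
        intro p hp1 hp2
        simp only [hφf]
        rw [if_neg (by omega)]
        exact le_of_eq rfl) hee0 hle (by
        rw [hff]
        have h1 : (φ - ε) * v < v * ee (n + 2) + lam * (v * ee (n + 1)) := by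
          rw [← hev, ← hev]; exact hlt
        have h3 : v * (φ - ε) < v * (ee (n + 2) + lam * ee (n + 1)) := by
          calc v * (φ - ε) = (φ - ε) * v := by ring
            _ < _ := h1
            _ = _ := by ring
        have h4 := lt_of_mul_lt_mul_left h3 hv0
        rw [hlam, lw] at h4
        exact h4.le) (by
        rw [hff]
        have h1 : ((n + 1 : ℕ) : ℝ) + 1 = (n:ℝ) + 2 := by push_cast; ring
        have h3 := hmain
        unfold stp_low at h3
        rw [h1, hlam, lw] at h3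
        exact h3)
    rw [hff] at hres
    have hbk : Pool.Agent.H55.KB.BK κ (n + 2) = tt := rfl
    rw [hbk] at hres
    -- r (1 + 4 C) ≤ tt / 4
    have h5 : r * (4 + 16 * C) ≤ tt := by
      rwa [le_div_iff₀ (by positivity)] at hr3
    nlinarith
  -- infimum
  obtain ⟨φ0, hφ00, hφ0⟩ := hAP t ht n lam hlam0
  set S : Set ℝ := {φ | tt ≤ φ ∧ CB E t n lam φ} with hS
  have hSne : S.Nonempty := ⟨max tt φ0, le_max_left _ _, hmono _ _ (le_max_right _ _) hφ0⟩
  have hSb : BddBelow S := ⟨tt, fun φ hφ => hφ.1⟩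
  set φs : ℝ := sInf S with hφs
  have hφs1 : tt ≤ φs := le_csInf hSne fun φ hφ => hφ.1
  have hφs2 : CB E t n lam φs := by
    intro U e hF ψ hψ
    have hv0 := hcv U hF.pp ψ hψ
    rcases hv0.lt_or_eq with h | h
    · rw [← div_le_iff₀ h]
      refine le_csInf hSne fun φ hφ => ?_
      rw [div_le_iff₀ h]
      exact hφ.2 U e hF ψ hψ
    · obtain ⟨φ, hφ⟩ := hSne
      have h1 := hφ.2 U e hF ψ hψ
      rw [← h] at h1 ⊢
      simpa using h1
  rcases hφs1.lt_or_eq with h | h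
  · obtain ⟨φ', h1, h3, h4⟩ := key φs h hφs2
    have := csInf_le hSb (show φ' ∈ S from ⟨h1, h4⟩)
    exact absurd this (not_le.2 h3)
  · rw [h]; exact hφs2

end Pool.Agent.H35.KB
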